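import Pool.Agent.V11121.Orb.Par

/-!
# The spread between orbital chromatic roots and chromatic roots is unbounded
-/

namespace Pool.Agent.Results.MP_fefe6a_co.OrbitalSpread

open Polynomial

/-- `p` is the chromatic polynomial of `Γ`: for every positive integer `q` its value at `q` is the
number of proper vertex colourings of `Γ` with `q` colours. -/
def IsChromaticPolynomial {V : Type} (Γ : SimpleGraph V) (p : ℝ[X]) : Prop :=
  ∀ q : ℕ, 1 ≤ q → p.eval (q : ℝ) = (Nat.card (Γ.Coloring (Fin q)) : ℝ)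

/-- Two proper `q`-colourings are in the same orbit of the group `G` of automorphisms of `Γ`
(acting by permuting the vertices). -/
def SameOrbit {V : Type} (Γ : SimpleGraph V) (G : Subgroup (Γ ≃g Γ)) (q : ℕ)
    (c c' : Γ.Coloring (Fin q)) : Prop := ∃ g ∈ G, ∀ v, c' v = c (g v)

/-- `o` is the orbital chromatic polynomial of `Γ` and `G`: for every positive integer `q` its
value at `q` is the number of `G`-orbits on the proper `q`-colourings of `Γ`. -/
def IsOrbitalPolynomial {V : Type} (Γ : SimpleGraph V) (G : Subgroup (Γ ≃g Γ)) (o : ℝ[X]) : Prop :=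
  ∀ q : ℕ, 1 ≤ q → o.eval (q : ℝ) = (Nat.card (Quot (SameOrbit Γ G q)) : ℝ)

open V11121.Orb in
/-- For every real `N > 0` there are a finite graph `Γ` and a group `G` of automorphisms of `Γ`
such that the orbital chromatic polynomial has a real root `r ≥ λ + N`, where `λ` is the largest
real root of the chromatic polynomial of `Γ`. -/
theorem result : ∀ N : ℝ, 0 < N →
    ∃ (V : Type) (_ : Fintype V) (_ : Nonempty V) (Γ : SimpleGraph V) (G : Subgroup (Γ ≃g Γ))
      (p o : ℝ[X]), IsChromaticPolynomial Γ p ∧ IsOrbitalPolynomial Γ G o ∧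
      ∃ lam r : ℝ, IsGreatest {x : ℝ | p.eval x = 0} lam ∧ o.eval r = 0 ∧ lam + N ≤ r := by
  intro N hN
  obtain ⟨k0, hk0⟩ := exists_nat_ge N
  set k := k0 + 3 with hkdef
  have hk : 2 ≤ k := by omega
  have hkN : N + 3 ≤ (k : ℝ) := by rw [hkdef]; push_cast; linarith
  obtain ⟨b, e, hb, hb3, hA, hB⟩ := exists_params hk
  have hcast : ((2 * k : ℕ) : ℝ) = 2 * k := by push_cast; ring
  refine ⟨Vt (2 * k) b e, inferInstance, ⟨Sum.inl ⟨0, by omega⟩⟩, Gm (2 * k) b e,
    (twHom (2 * k) b e).range, pPoly (2 * k) b e, oPoly (2 * k) b e, ?_, ?_, ?_⟩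
  · intro q _
    rw [pPoly_eval, PP_nat]
  · intro q _
    rw [oPoly_eval, OO_nat]
    rfl
  have hpos : ∀ x : ℝ, (k : ℝ) + 1 ≤ x → 0 < (pPoly (2 * k) b e).eval x := by
    intro x hx
    rw [pPoly_eval]
    rcases le_or_gt x (((2 * k : ℕ) : ℝ) - 1) with h | h
    · exact PP_pos_mid hk hA hx h
    · exact PP_pos_right (by omega) hb h.le
  have hp0 : pPoly (2 * k) b e ≠ 0 := by
    intro h
    have := hpos ((k : ℝ) + 1) le_rfl
    rw [h, eval_zero] at this
    exact lt_irrefl _ this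
  have hzero : (pPoly (2 * k) b e).eval 0 = 0 := by
    rw [pPoly_eval, PP]
    apply Finset.sum_eq_zero
    intro π _
    have h1 : DP (nc π) 0 = 0 := by
      rw [DP]
      apply Finset.prod_eq_zero (i := 0)
      · exact Finset.mem_range.mpr (one_le_nc (by omega) π)
      · simp
    rw [h1, zero_mul]
  have hfin : {x : ℝ | (pPoly (2 * k) b e).eval x = 0}.Finite := by
    apply Set.Finite.subset (pPoly (2 * k) b e).roots.toFinset.finite_toSet
    intro x hx
    have hx' : (pPoly (2 * k) b e).eval x = 0 := hx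
    simp only [Finset.mem_coe, Multiset.mem_toFinset]
    exact (mem_roots hp0).mpr hx'
  obtain ⟨lam, hlam, hmax⟩ := Set.exists_max_image _ id hfin ⟨0, hzero⟩
  have hlt : lam < (k : ℝ) + 1 := by
    by_contra hc
    have h1 := hpos lam (not_lt.mp hc)
    have h2 : (pPoly (2 * k) b e).eval lam = 0 := hlam
    rw [h2] at h1
    exact lt_irrefl _ h1
  have hneg : (oPoly (2 * k) b e).eval (((2 * k : ℕ) : ℝ) - 3 / 2) < 0 := by
    rw [oPoly_eval]
    exact OO_neg (by omega) hb3 rfl hB
  have hnn : 0 ≤ (oPoly (2 * k) b e).eval (((2 * k : ℕ) : ℝ)) := by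
    rw [oPoly_eval, OO_nat]
    exact Nat.cast_nonneg _
  have hroot : ∃ r ∈ Set.Icc (((2 * k : ℕ) : ℝ) - 3 / 2) (((2 * k : ℕ) : ℝ)),
      (oPoly (2 * k) b e).eval r = 0 := by
    have h1 := intermediate_value_Icc (show (((2 * k : ℕ) : ℝ) - 3 / 2) ≤ (((2 * k : ℕ) : ℝ)) by
      linarith) (f := fun x => (oPoly (2 * k) b e).eval x)
      (oPoly (2 * k) b e).continuous.continuousOn
    exact h1 ⟨hneg.le, hnn⟩
  obtain ⟨r, hr, hr0⟩ := hroot
  refine ⟨lam, r, ⟨hlam, fun x hx => hmax x hx⟩, hr0, ?_⟩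
  have h3 := hr.1
  rw [hcast] at h3
  linarith

end Pool.Agent.Results.MP_fefe6a_co.OrbitalSpread
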